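import Pool.Agent.H854R3.NE.FinRed

/-! If the prime rings of a variety are commutative and the rings whose commutator ideal has
square zero satisfy an Engel identity, then the variety is Engel. -/

set_option autoImplicit false

namespace Pool.Agent.Q12.NE

open Pool.Agent.H854R3.NE

variable {R : Type} [NonUnitalRing R]

/-- A ring generated by `z`, `y`, with `z` in an ideal on which all products vanish. -/
theorem D2_of_ideal {Q : Type} [NonUnitalRing Q] (L : TwoSidedIdeal Q)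
    (h1 : ∀ a ∈ L, ∀ b ∈ L, a * b = 0) (h2 : ∀ a ∈ L, ∀ b ∈ L, ∀ c : Q, a * c * b = 0)
    {z y : Q} (hz : z ∈ L) : D2 (sub2 z y) := by
  have hg := genBy_sub2 z y
  -- the ideal commutes modulo `L`
  obtain ⟨Q', _, φ, hφ, hker⟩ := exists_quot L
  have hz0 : φ z = 0 := (hker z).2 hz
  let ψ : sub2 z y →ₙ+* Q' := φ.comp (NonUnitalSubringClass.subtype (sub2 z y))
  have hψz : ψ (sx z y) = 0 := hz0
  have hcy : ∀ s : sub2 z y, ψ s * ψ (sy z y) = ψ (sy z y) * ψ s := by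
    intro s
    refine hg.induction (P := fun s => ψ s * ψ (sy z y) = ψ (sy z y) * ψ s) ?_ ?_ ?_ ?_ ?_ ?_ s
    · rw [hψz, zero_mul, mul_zero]
    · rfl
    · rw [map_zero, zero_mul, mul_zero]
    · intro a b ha hb; rw [map_add, add_mul, mul_add, ha, hb]
    · intro a ha; rw [map_neg, neg_mul, mul_neg, ha]
    · intro a b ha hb; rw [map_mul, mul_assoc, hb, ← mul_assoc, ha, mul_assoc]
  have hcc : ∀ t s : sub2 z y, ψ s * ψ t = ψ t * ψ s := by
    intro t s
    refine hg.induction (P := fun t => ψ s * ψ t = ψ t * ψ s) ?_ ?_ ?_ ?_ ?_ ?_ t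
    · rw [hψz, zero_mul, mul_zero]
    · exact hcy s
    · rw [map_zero, zero_mul, mul_zero]
    · intro a b ha hb; rw [map_add, add_mul, mul_add, ha, hb]
    · intro a ha; rw [map_neg, neg_mul, mul_neg, ha]
    · intro a b ha hb; rw [map_mul, ← mul_assoc, ha, mul_assoc, hb, mul_assoc]
  have hmem : ∀ a ∈ Comm (sub2 z y), (a : Q) ∈ L := by
    rintro _ ⟨u, v, rfl⟩
    rw [← hker]
    change ψ (u * v - v * u) = 0
    rw [map_sub, map_mul, map_mul, hcc v u, sub_self]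
  refine ⟨?_, ?_⟩
  · intro a ha b hb
    exact Subtype.ext (h1 _ (hmem a ha) _ (hmem b hb))
  · intro a ha b hb c
    exact Subtype.ext (h2 _ (hmem a ha) _ (hmem b hb) c)

/-- If `D2Engel` holds and every prime ring is commutative then the variety is Engel. -/
theorem engel_of_prime {E : Set (RTerm × RTerm)} {n : ℕ} (hD : D2Engel E n)
    (hcomm : ∀ (P : Type) [NonUnitalRing P], Models E P → PrimeR P → ∀ x y : P, x * y = y * x) :
    IsEngel E := by
  by_contra hcon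
  obtain ⟨A, _, x0, y0, hA, hne⟩ := exists_of_not_engel hcon
  obtain ⟨I, hI, hmax⟩ := exists_max_ideal (fun I : TwoSidedIdeal A => ∀ k, eng x0 y0 k ∉ I)
    (by intro k; rw [TwoSidedIdeal.mem_bot]; exact hne k)
    (by
      intro c _ _ hP U hU k hk
      obtain ⟨I, hI, h⟩ := (hU _).1 hk
      exact hP I hI k h)
  obtain ⟨Q, _, φ, hφ, hker⟩ := exists_quot I
  have hQ : Models E Q := hA.of_surjective φ hφ
  set x := φ x0 with hx
  set y := φ y0 with hy
  have he : ∀ k, eng x y k ≠ 0 := by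
    intro k hk
    apply hI k
    rw [← hker, eng_map]
    exact hk
  -- every non-zero ideal contains some `eng x y k`
  have hall : ∀ J : TwoSidedIdeal Q, J ≠ ⊥ → ∃ k, eng x y k ∈ J := by
    intro J hJ
    by_contra hcon'
    push Not at hcon'
    let J' : TwoSidedIdeal A := TwoSidedIdeal.mk' {x | φ x ∈ J}
      (by change φ 0 ∈ J; rw [map_zero]; exact J.zero_mem)
      (by intro x y hx hy; change φ (x + y) ∈ J; rw [map_add]; exact J.add_mem hx hy)
      (by intro x hx; change φ (-x) ∈ J; rw [map_neg]; exact J.neg_mem hx)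
      (by intro x y hy; change φ (x * y) ∈ J; rw [map_mul]; exact J.mul_mem_left _ _ hy)
      (by intro x y hx; change φ (x * y) ∈ J; rw [map_mul]; exact J.mul_mem_right _ _ hx)
    have hJ' : ∀ x, x ∈ J' ↔ φ x ∈ J := fun x => TwoSidedIdeal.mem_mk' _ _ _ _ _ _ x
    have h1 : J' = I := by
      apply hmax J'
      · intro k hk
        rw [hJ', eng_map] at hk
        exact hcon' k hk
      · intro x hx
        rw [hJ', (hker x).2 hx]
        exact J.zero_mem
    obtain ⟨y, hy, hy0⟩ := exists_mem_ne hJ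
    obtain ⟨x, rfl⟩ := hφ y
    apply hy0
    rw [hker, ← h1, hJ']
    exact hy
  have hup : ∀ (J : TwoSidedIdeal Q) (k j : ℕ), eng x y k ∈ J → eng x y (k + j) ∈ J := by
    intro J k j hk
    induction j with
    | zero => exact hk
    | succ j ih =>
      change eng x y (k + j) * y - y * eng x y (k + j) ∈ J
      exact J.sub_mem (J.mul_mem_right _ _ ih) (J.mul_mem_left _ _ ih)
  -- no ideal with zero multiplication
  have hno : ∀ L : TwoSidedIdeal Q, (∀ a ∈ L, ∀ b ∈ L, a * b = 0) →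
      (∀ a ∈ L, ∀ b ∈ L, ∀ c : Q, a * c * b = 0) → L = ⊥ := by
    intro L h1 h2
    by_contra hL
    obtain ⟨k, hk⟩ := hall L hL
    have hD2 := D2_of_ideal L h1 h2 (z := eng x y k) (y := y) hk
    have h3 := hD.2 (sub2 (eng x y k) y) (hQ.subring _) hD2 (sx (eng x y k) y) (sy (eng x y k) y)
    have h4 := eng_map (NonUnitalSubringClass.subtype (sub2 (eng x y k) y))
      (sx (eng x y k) y) (sy (eng x y k) y) n
    rw [h3, map_zero] at h4
    have h5 : eng (eng x y k) y n = 0 := h4.symm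
    rw [← eng_add] at h5
    exact he _ h5
  have hprime : PrimeR Q := by
    intro u v huv
    by_contra hcon'
    push Not at hcon'
    obtain ⟨hu, hv⟩ := hcon'
    let K1 : TwoSidedIdeal Q := TwoSidedIdeal.mk' {z | ∀ g, z * g * v = 0}
      (by intro g; rw [zero_mul, zero_mul])
      (by intro x y hx hy g; rw [add_mul, add_mul, hx g, hy g, add_zero])
      (by intro x hx g; rw [neg_mul, neg_mul, hx g, neg_zero])
      (by intro x y hy g; rw [mul_assoc x y g, mul_assoc x, hy g, mul_zero])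
      (by intro x y hx g; rw [mul_assoc x y g]; exact hx (y * g))
    have hK1 : ∀ z, z ∈ K1 ↔ ∀ g, z * g * v = 0 := fun z => TwoSidedIdeal.mem_mk' _ _ _ _ _ _ z
    let K2 : TwoSidedIdeal Q := TwoSidedIdeal.mk' {z | ∀ t ∈ K1, ∀ g, t * g * z = 0}
      (by intro t _ g; rw [mul_zero])
      (by intro x y hx hy t ht g; rw [mul_add, hx t ht g, hy t ht g, add_zero])
      (by intro x hx t ht g; rw [mul_neg, hx t ht g, neg_zero])
      (by intro x y hy t ht g; rw [← mul_assoc, mul_assoc t g x]; exact hy t ht (g * x))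
      (by intro x y hx t ht g; rw [← mul_assoc, hx t ht g, zero_mul])
    have hK2 : ∀ z, z ∈ K2 ↔ ∀ t ∈ K1, ∀ g, t * g * z = 0 :=
      fun z => TwoSidedIdeal.mem_mk' _ _ _ _ _ _ z
    have hK1' : K1 ≠ ⊥ := ne_bot_of_mem ((hK1 u).2 huv) hu
    have hK2' : K2 ≠ ⊥ := ne_bot_of_mem ((hK2 v).2 (fun t ht g => (hK1 t).1 ht g)) hv
    obtain ⟨i, hi⟩ := hall K1 hK1'
    obtain ⟨j, hj⟩ := hall K2 hK2'
    have hi' : eng x y (i + j) ∈ K1 := hup K1 i j hi
    have hj' : eng x y (i + j) ∈ K2 := by rw [add_comm]; exact hup K2 j i hj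
    -- the ideal of the elements of `K1 ∩ K2` annihilated by `K1 ∩ K2`
    let L : TwoSidedIdeal Q := TwoSidedIdeal.mk'
      {z | (z ∈ K1 ∧ z ∈ K2) ∧ ∀ t, t ∈ K1 → t ∈ K2 → z * t = 0 ∧ t * z = 0}
      ⟨⟨K1.zero_mem, K2.zero_mem⟩, fun t _ _ => ⟨zero_mul _, mul_zero _⟩⟩
      (by
        rintro a b ⟨⟨ha1, ha2⟩, ha⟩ ⟨⟨hb1, hb2⟩, hb⟩
        refine ⟨⟨K1.add_mem ha1 hb1, K2.add_mem ha2 hb2⟩, fun t ht1 ht2 => ⟨?_, ?_⟩⟩
        · rw [add_mul, (ha t ht1 ht2).1, (hb t ht1 ht2).1, add_zero]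
        · rw [mul_add, (ha t ht1 ht2).2, (hb t ht1 ht2).2, add_zero])
      (by
        rintro a ⟨⟨ha1, ha2⟩, ha⟩
        refine ⟨⟨K1.neg_mem ha1, K2.neg_mem ha2⟩, fun t ht1 ht2 => ⟨?_, ?_⟩⟩
        · rw [neg_mul, (ha t ht1 ht2).1, neg_zero]
        · rw [mul_neg, (ha t ht1 ht2).2, neg_zero])
      (by
        rintro c a ⟨⟨ha1, ha2⟩, ha⟩
        refine ⟨⟨K1.mul_mem_left _ _ ha1, K2.mul_mem_left _ _ ha2⟩, fun t ht1 ht2 => ⟨?_, ?_⟩⟩
        · rw [mul_assoc, (ha t ht1 ht2).1, mul_zero]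
        · rw [← mul_assoc]
          exact (hK2 a).1 ha2 t ht1 c)
      (by
        rintro a c ⟨⟨ha1, ha2⟩, ha⟩
        refine ⟨⟨K1.mul_mem_right _ _ ha1, K2.mul_mem_right _ _ ha2⟩, fun t ht1 ht2 => ⟨?_, ?_⟩⟩
        · exact (hK2 t).1 ht2 a ha1 c
        · rw [← mul_assoc, (ha t ht1 ht2).2, zero_mul])
    have hL : ∀ z, z ∈ L ↔ (z ∈ K1 ∧ z ∈ K2) ∧ ∀ t, t ∈ K1 → t ∈ K2 → z * t = 0 ∧ t * z = 0 :=
      fun z => TwoSidedIdeal.mem_mk' _ _ _ _ _ _ z
    have hLbot : L = ⊥ := by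
      apply hno L
      · intro a ha b hb
        exact (((hL a).1 ha).2 b ((hL b).1 hb).1.1 ((hL b).1 hb).1.2).1
      · intro a ha b hb c
        exact (hK2 b).1 ((hL b).1 hb).1.2 a ((hL a).1 ha).1.1 c
    have hLz : ∀ z ∈ L, z = 0 := by
      intro z hz
      rw [hLbot] at hz
      exact (TwoSidedIdeal.mem_bot Q).1 hz
    -- products of two elements of `K1 ∩ K2` lie in `L`
    have hprod : ∀ s t : Q, s ∈ K1 → s ∈ K2 → t ∈ K1 → t ∈ K2 → s * t = 0 := by
      intro s t hs1 hs2 ht1 ht2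
      apply hLz
      rw [hL]
      refine ⟨⟨K1.mul_mem_right _ _ hs1, K2.mul_mem_right _ _ hs2⟩, fun w hw1 hw2 => ⟨?_, ?_⟩⟩
      · exact (hK2 w).1 hw2 s hs1 t
      · rw [← mul_assoc]
        exact (hK2 t).1 ht2 w hw1 s
    apply he (i + j)
    apply hLz
    rw [hL]
    exact ⟨⟨hi', hj'⟩, fun t ht1 ht2 => ⟨hprod _ _ hi' hj' ht1 ht2, hprod _ _ ht1 ht2 hi' hj'⟩⟩
  apply he 1
  change x * y - y * x = 0
  rw [hcomm Q hQ hprime x y, sub_self]

end Pool.Agent.Q12.NE
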