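import Pool.Agent.Q12.NE.Eng
import Pool.Agent.Q12.NE.Lin
import Pool.Agent.Q12.NE.Rep

/-! The torsion-free prime rings of the variety are commutative. -/

set_option autoImplicit false

namespace Pool.Agent.Q12.NE

open Pool.Agent.H854R3.NE

/-- the free ring with one over the integers -/
abbrev FZ (n : ℕ) := FreeAlgebra ℤ (Fin n)

/-- the free ring without one, on two generators -/
abbrev PhiZ : NonUnitalSubring (FZ 2) := sub2 (FreeAlgebra.ι ℤ 0) (FreeAlgebra.ι ℤ 1)

/-- reduction modulo `p` -/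
noncomputable def redP (p : ℕ) : FZ 2 →ₐ[ℤ] FA p := FreeAlgebra.lift ℤ ![g0 p, g1 p]

theorem not_models_PhiZ {E : Set (RTerm × RTerm)} {p : ℕ} [hp : Fact p.Prime]
    (hW : IsEngel (E ∪ WId p (p ^ 1))) : ¬ Models E PhiZ := by
  intro hM
  apply not_models_Phi hW
  let χ : PhiZ →ₙ+* FA p :=
    { toFun := fun w => redP p (w : FZ 2)
      map_mul' := fun a b => map_mul (redP p) (a : FZ 2) b
      map_zero' := map_zero (redP p)
      map_add' := fun a b => map_add (redP p) (a : FZ 2) b }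
  have hgen := genBy_sub2 (FreeAlgebra.ι ℤ (0 : Fin 2)) (FreeAlgebra.ι ℤ (1 : Fin 2))
  have hχ0 : χ (sx (FreeAlgebra.ι ℤ (0 : Fin 2)) (FreeAlgebra.ι ℤ (1 : Fin 2))) = g0 p := by
    change redP p (FreeAlgebra.ι ℤ 0) = _
    simp [redP]
  have hχ1 : χ (sy (FreeAlgebra.ι ℤ (0 : Fin 2)) (FreeAlgebra.ι ℤ (1 : Fin 2))) = g1 p := by
    change redP p (FreeAlgebra.ι ℤ 1) = _
    simp [redP]
  have hmem : ∀ w : PhiZ, χ w ∈ Phi p := by
    intro w
    refine hgen.induction (P := fun w => χ w ∈ Phi p) ?_ ?_ ?_ ?_ ?_ ?_ w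
    · rw [hχ0]; exact (sx (g0 p) (g1 p)).2
    · rw [hχ1]; exact (sy (g0 p) (g1 p)).2
    · rw [map_zero]; exact zero_mem _
    · intro a b ha hb; rw [map_add]; exact add_mem ha hb
    · intro a ha; rw [map_neg]; exact neg_mem ha
    · intro a b ha hb; rw [map_mul]; exact mul_mem ha hb
  let ψ : PhiZ →ₙ+* Phi p :=
    { toFun := fun w => ⟨χ w, hmem w⟩
      map_mul' := fun a b => Subtype.ext (map_mul χ a b)
      map_zero' := Subtype.ext (map_zero χ)
      map_add' := fun a b => Subtype.ext (map_add χ a b) }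
  refine hM.of_surjective ψ ?_
  intro w
  refine (genBy_sub2 (g0 p) (g1 p)).induction (P := fun w => ∃ a, ψ a = w) ?_ ?_ ?_ ?_ ?_ ?_ w
  · exact ⟨_, Subtype.ext hχ0⟩
  · exact ⟨_, Subtype.ext hχ1⟩
  · exact ⟨0, map_zero ψ⟩
  · rintro a b ⟨a, rfl⟩ ⟨b, rfl⟩; exact ⟨a + b, map_add ψ a b⟩
  · rintro a ⟨a, rfl⟩; exact ⟨-a, map_neg ψ a⟩
  · rintro a b ⟨a, rfl⟩ ⟨b, rfl⟩; exact ⟨a * b, map_mul ψ a b⟩

/-- a polynomial identity with integer coefficients -/
theorem exists_polyZ {E : Set (RTerm × RTerm)} (hM : ¬ Models E PhiZ) :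
    ∃ f : FZ 2, f ≠ 0 ∧ ∀ (A : Type) [NonUnitalRing A], Models E A → ∀ x y : A,
      FreeAlgebra.lift ℤ ![(x : Unitization ℤ A), (y : Unitization ℤ A)] f = 0 := by
  unfold Models Satisfies at hM
  push Not at hM
  obtain ⟨e, he, v, hv⟩ := hM
  refine ⟨((e.1.val v - e.2.val v : PhiZ) : FZ 2), ?_, ?_⟩
  · intro h
    apply hv
    exact sub_eq_zero.1 (Subtype.ext h)
  intro A _ hA x y
  let L := FreeAlgebra.lift ℤ ![(x : Unitization ℤ A), (y : Unitization ℤ A)]
  have hL : ∀ w : PhiZ, ∃ a : A, L (w : FZ 2) = a := by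
    intro w
    refine (genBy_sub2 (FreeAlgebra.ι ℤ (0 : Fin 2)) (FreeAlgebra.ι ℤ (1 : Fin 2))).induction
      (P := fun w => ∃ a : A, L (w : FZ 2) = a) ?_ ?_ ?_ ?_ ?_ ?_ w
    · exact ⟨x, by simp [L, sx]⟩
    · exact ⟨y, by simp [L, sy]⟩
    · exact ⟨0, by simp⟩
    · rintro a b ⟨a', ha⟩ ⟨b', hb⟩
      refine ⟨a' + b', ?_⟩
      change L ((a : FZ 2) + b) = _
      rw [map_add, ha, hb, Unitization.inr_add]
    · rintro a ⟨a', ha⟩
      refine ⟨-a', ?_⟩
      change L (-(a : FZ 2)) = _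
      rw [map_neg, ha, Unitization.inr_neg]
    · rintro a b ⟨a', ha⟩ ⟨b', hb⟩
      refine ⟨a' * b', ?_⟩
      change L ((a : FZ 2) * b) = _
      rw [map_mul, ha, hb, Unitization.inr_mul]
  choose ψ hψ using hL
  let Ψ : PhiZ →ₙ+* A :=
    { toFun := ψ
      map_mul' := by
        intro a b
        apply Unitization.inr_injective (R := ℤ)
        rw [Unitization.inr_mul, ← hψ, ← hψ, ← hψ]
        exact map_mul L (a : FZ 2) b
      map_zero' := by
        apply Unitization.inr_injective (R := ℤ)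
        rw [Unitization.inr_zero, ← hψ]
        exact map_zero L
      map_add' := by
        intro a b
        apply Unitization.inr_injective (R := ℤ)
        rw [Unitization.inr_add, ← hψ, ← hψ, ← hψ]
        exact map_add L (a : FZ 2) b }
  have h1 : Ψ (e.1.val v - e.2.val v) = 0 := by
    rw [map_sub, val_map, val_map, sub_eq_zero]
    exact hA e he _
  have h2 : L ((e.1.val v - e.2.val v : PhiZ) : FZ 2) = (Ψ (e.1.val v - e.2.val v) : A) := hψ _
  rw [h1, Unitization.inr_zero] at h2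
  exact h2

/-- the substitution of commutators -/
noncomputable def comSub : FZ 2 →ₐ[ℤ] FZ 4 :=
  FreeAlgebra.lift ℤ ![FreeAlgebra.ι ℤ 0 * FreeAlgebra.ι ℤ 1 - FreeAlgebra.ι ℤ 1 * FreeAlgebra.ι ℤ 0,
    FreeAlgebra.ι ℤ 2 * FreeAlgebra.ι ℤ 3 - FreeAlgebra.ι ℤ 3 * FreeAlgebra.ι ℤ 2]

theorem comSub_ne {f : FZ 2} (hf : f ≠ 0) : comSub f ≠ 0 := by
  intro h
  let a : Fin 2 → Matrix (Fin 2) (Fin 2) (FZ 2) := fun i => !![0, FreeAlgebra.ι ℤ i; 0, 0]
  let b : Matrix (Fin 2) (Fin 2) (FZ 2) := !![0, 0; 1, 0]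
  let T : FZ 4 →ₐ[ℤ] Matrix (Fin 2) (Fin 2) (FZ 2) := FreeAlgebra.lift ℤ ![a 0, b, a 1, b]
  let D : FZ 2 →ₐ[ℤ] Matrix (Fin 2) (Fin 2) (FZ 2) := T.comp comSub
  have hD : ∀ g : FZ 2, D g 0 0 = g ∧ D g 0 1 = 0 ∧ D g 1 0 = 0 := by
    intro g
    have hgen : ∀ i : Fin 2, D (FreeAlgebra.ι ℤ i) = !![FreeAlgebra.ι ℤ i, 0; 0, - FreeAlgebra.ι ℤ i] := by
      intro i
      have h1 : comSub (FreeAlgebra.ι ℤ i) =
        ![FreeAlgebra.ι ℤ 0 * FreeAlgebra.ι ℤ 1 - FreeAlgebra.ι ℤ 1 * FreeAlgebra.ι ℤ 0,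
    FreeAlgebra.ι ℤ 2 * FreeAlgebra.ι ℤ 3 - FreeAlgebra.ι ℤ 3 * FreeAlgebra.ι ℤ 2] i := by
        simp [comSub]
      change T (comSub (FreeAlgebra.ι ℤ i)) = _
      rw [h1]
      fin_cases i
      · simp only [T, a, b, Fin.isValue, Matrix.cons_val_zero, map_sub, map_mul,
          FreeAlgebra.lift_ι_apply, Fin.zero_eta]
        ext j k
        fin_cases j <;> fin_cases k <;> simp [Matrix.mul_apply, Fin.sum_univ_two]
      · simp only [T, a, b, Fin.isValue, Matrix.cons_val_one, map_sub, map_mul,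
          FreeAlgebra.lift_ι_apply, Fin.mk_one]
        ext j k
        fin_cases j <;> fin_cases k <;> simp [Matrix.mul_apply, Fin.sum_univ_two]
    induction g using FreeAlgebra.induction with
    | grade0 r =>
      rw [AlgHom.commutes]
      refine ⟨?_, ?_, ?_⟩ <;> simp [Matrix.algebraMap_matrix_apply]
    | grade1 i =>
      rw [hgen]
      exact ⟨rfl, rfl, rfl⟩
    | mul g h hg hh =>
      rw [map_mul]
      refine ⟨?_, ?_, ?_⟩ <;>
        rw [Matrix.mul_apply, Fin.sum_univ_two] <;> simp [hg.1, hg.2.1, hg.2.2, hh.1, hh.2.1, hh.2.2]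
    | add g h hg hh =>
      rw [map_add]
      refine ⟨?_, ?_, ?_⟩ <;> rw [Matrix.add_apply] <;>
        simp [hg.1, hg.2.1, hg.2.2, hh.1, hh.2.1, hh.2.2]
  apply hf
  rw [← (hD f).1]
  change T (comSub f) 0 0 = 0
  rw [h, map_zero]
  rfl

/-- commutators in the unitization lie in the ring -/
theorem comm_inr {A : Type} [NonUnitalRing A] (u v : Unitization ℤ A) :
    ∃ a : A, u * v - v * u = (a : Unitization ℤ A) := by
  refine ⟨(u * v - v * u).snd, ?_⟩
  apply Unitization.ext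
  · have h : (u * v - v * u).fst = u.fst * v.fst - v.fst * u.fst := by
      have := map_sub (Unitization.fstHom ℤ A) (u * v) (v * u)
      rw [map_mul, map_mul] at this
      exact this
    rw [Unitization.fst_inr, h, mul_comm, sub_self]
  · rw [Unitization.snd_inr]

theorem exists_multilinearZ {E : Set (RTerm × RTerm)} (hM : ¬ Models E PhiZ)
    (A : Type) [NonUnitalRing A] (hA : Models E A) :
    ∃ (m : ℕ) (c : Equiv.Perm (Fin m) → ℤ), c 1 ≠ 0 ∧ ∀ a : Fin m → Unitization ℤ A,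
      ∑ π, c π • (List.ofFn fun k => a (π k)).prod = 0 := by
  obtain ⟨f, hf, hfA⟩ := exists_polyZ hM
  obtain ⟨d, c, hc1, hc⟩ := Lin.linearise (F := ℤ) (C := Unitization ℤ A) ⊤ (comSub f) (comSub_ne hf)
    (by
      intro a _
      obtain ⟨x, hx⟩ := comm_inr (a 0) (a 1)
      obtain ⟨y, hy⟩ := comm_inr (a 2) (a 3)
      have h1 : (FreeAlgebra.lift ℤ a).comp comSub =
          FreeAlgebra.lift ℤ ![(x : Unitization ℤ A), (y : Unitization ℤ A)] := by
        apply FreeAlgebra.hom_ext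
        funext i
        fin_cases i
        · simp [comSub, ← hx]
        · simp [comSub, ← hy]
      have h2 := hfA A hA x y
      rw [← h1] at h2
      exact h2)
  exact ⟨d, c, hc1, fun a => hc a (fun _ => trivial)⟩

/-- two-generated torsion-free rings without zero divisors are commutative -/
theorem domain_comm_zero {E : Set (RTerm × RTerm)} {n : ℕ} (hD : D2Engel E n)
    (hM : ¬ Models E PhiZ) {P : Type} [NonUnitalRing P] (hP : Models E P)
    (htf : ∀ (k : ℤ) (x : P), k ≠ 0 → k • x = 0 → x = 0)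
    (hdom : ∀ a b : P, a * b = 0 → a = 0 ∨ b = 0) {x y : P}
    (hg : GenBy x y) : x * y = y * x := by
  classical
  by_contra hne
  set α := x * y - y * x with hα
  have hα0 : α ≠ 0 := fun h => hne (sub_eq_zero.1 h)
  obtain ⟨m, c, hc, hid⟩ := exists_multilinearZ hM P hP
  have hβ0 : c 1 • α ≠ 0 := fun h => hα0 (htf _ _ hc h)
  have hβk : ∀ k, npw (c 1 • α) k ≠ 0 := by
    intro k
    induction k with
    | zero => exact hβ0
    | succ k ih =>
      intro h
      rcases hdom _ _ h with h | h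
      · exact ih h
      · exact hβ0 h
  have hγ : ∀ k, (c 1 • (α : Unitization ℤ P)) ^ k ≠ 0 := by
    intro k
    cases k with
    | zero => rw [pow_zero]; exact one_ne_zero
    | succ k =>
      rw [← Unitization.inr_smul, ← inr_npw]
      intro h
      exact hβk k (Unitization.inr_injective (h.trans (Unitization.inr_zero ℤ).symm))
  obtain ⟨K, iK, s, Θ, hΘ⟩ := exists_matrix_int (C := Unitization ℤ P) c 1 hid (γ := (α : Unitization ℤ P)) hγ
  let Θ₁ : P →ₙ+* Matrix (Fin s) (Fin s) K :=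
    { toFun := fun a => Θ (a : Unitization ℤ P)
      map_mul' := by intro a b; rw [Unitization.inr_mul, map_mul]
      map_zero' := by rw [Unitization.inr_zero, map_zero]
      map_add' := by intro a b; rw [Unitization.inr_add, map_add] }
  obtain ⟨k, hk⟩ := no_rep hD hP hg Θ₁
  rw [npw_eq_pow] at hk
  exact hΘ (k + 1) hk

/-- Prime rings are torsion-free or of prime characteristic. -/
theorem prime_char {P : Type} [NonUnitalRing P] (hP : PrimeR P) :
    (∀ (k : ℤ) (x : P), k ≠ 0 → k • x = 0 → x = 0) ∨ ∃ p : ℕ, p.Prime ∧ ∀ x : P, p • x = 0 := by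
  by_cases h : ∀ (k : ℤ) (x : P), k ≠ 0 → k • x = 0 → x = 0
  · exact Or.inl h
  right
  push Not at h
  obtain ⟨k, x, hk, hkx, hx⟩ := h
  have step : ∀ (k : ℕ) (x : P), k • x = 0 → x ≠ 0 → ∀ y : P, k • y = 0 := by
    intro k x hkx hx y
    rcases hP x (k • y) (fun r => by
      rw [mul_smul_comm, ← smul_mul_assoc, ← smul_mul_assoc, hkx, zero_mul, zero_mul]) with h | h
    · exact absurd h hx
    · exact h
  have hk' : (k.natAbs : ℕ) • x = 0 := by
    rcases Int.natAbs_eq k with h | h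
    · rw [h, natCast_zsmul] at hkx; exact hkx
    · rw [h, neg_smul, natCast_zsmul, neg_eq_zero] at hkx; exact hkx
  have hex : ∃ m : ℕ, 0 < m ∧ ∀ y : P, m • y = 0 :=
    ⟨k.natAbs, Int.natAbs_pos.2 hk, step _ x hk' hx⟩
  classical
  obtain ⟨hm0, hm⟩ := Nat.find_spec hex
  set m := Nat.find hex with hmdef
  refine ⟨m, ?_, hm⟩
  rw [Nat.prime_def]
  constructor
  · by_contra h2
    have : m = 1 := by omega
    rw [this] at hm
    apply hx
    have := hm x
    rwa [one_smul] at this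
  · intro a ha
    obtain ⟨b, hb⟩ := ha
    by_contra hcon
    push Not at hcon
    obtain ⟨ha1, ham⟩ := hcon
    have ha0 : 0 < a := Nat.pos_of_ne_zero (by rintro rfl; rw [zero_mul] at hb; omega)
    have hb0 : 0 < b := Nat.pos_of_ne_zero (by rintro rfl; rw [mul_zero] at hb; omega)
    have hb1 : b < m := by
      rw [hb]
      have : 2 ≤ a := by omega
      nlinarith
    have halt : a < m := by
      refine lt_of_le_of_ne (Nat.le_of_dvd hm0 ⟨b, hb⟩) ham
    have hna : ¬ ∀ y : P, a • y = 0 := fun h => Nat.find_min hex halt ⟨ha0, h⟩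
    push Not at hna
    obtain ⟨u, hu⟩ := hna
    apply Nat.find_min hex hb1
    refine ⟨hb0, step b (a • u) ?_ hu⟩
    rw [smul_smul, mul_comm, ← hb]
    exact hm u

/-- All prime rings of the variety are commutative. -/
theorem prime_comm_all {E : Set (RTerm × RTerm)} {n : ℕ} (hD : D2Engel E n)
    (hW : ∀ p : ℕ, p.Prime → IsEngel (E ∪ WId p (p ^ 1))) {P : Type} [NonUnitalRing P]
    (hP : Models E P) (hprime : PrimeR P) (x y : P) : x * y = y * x := by
  rcases prime_char hprime with h | ⟨p, hp, hpP⟩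
  · have hM : ¬ Models E PhiZ := by
      have : Fact (Nat.Prime 2) := ⟨Nat.prime_two⟩
      exact not_models_PhiZ (hW 2 Nat.prime_two)
    have h1 := domain_comm_zero hD hM (hP.subring (sub2 x y))
      (fun k z hk hz => Subtype.ext (h k z.1 hk (congrArg Subtype.val hz)))
      (fun a b hab => by
        rcases domain_of_prime hD hP hprime (a := (a : P)) (b := (b : P))
          (congrArg Subtype.val hab) with h | h
        · exact Or.inl (Subtype.ext h)
        · exact Or.inr (Subtype.ext h)) (genBy_sub2 x y)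
    exact congrArg Subtype.val h1
  · have : Fact p.Prime := ⟨hp⟩
    exact prime_comm hD (hW p hp) hP hpP hprime x y

/-- If all the subvarieties `E ∪ WId p (p ^ k)` are Engel, then so is `E`. -/
theorem isEngel_of_W {E : Set (RTerm × RTerm)}
    (hW : ∀ p k : ℕ, p.Prime → 1 ≤ k → IsEngel (E ∪ WId p (p ^ k))) : IsEngel E := by
  obtain ⟨n, hn⟩ := exists_D2Engel hW
  exact engel_of_prime hn (fun P _ hP hprime x y =>
    prime_comm_all hn (fun p hp => hW p 1 hp le_rfl) hP hprime x y)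

/-- A minimal non-Engel variety satisfies the identities of one of the varieties `WId`. -/
theorem sub_of_minimal {E : Set (RTerm × RTerm)} (h : MinimalNonEngel E) :
    ∃ p k : ℕ, p.Prime ∧ 1 ≤ k ∧ SubvarietyOf E (WId p (p ^ k)) := by
  by_contra hcon
  push Not at hcon
  apply h.1
  apply isEngel_of_W
  intro p k hp hk
  apply h.2
  · intro R _ hR e he
    exact hR e (Or.inl he)
  · intro hsub
    apply hcon p k hp hk
    intro R _ hR e he
    exact hsub R hR e (Or.inr he)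

end Pool.Agent.Q12.NE
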